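import Pool.Agent.Helper5.WD.Stmts
import Pool.Agent.Helper85.FV.STW

/-! GSTW: the row STW for weighted degrees. -/

set_option autoImplicit false

open Finset Pool.Agent.Helper8.UN Pool.Agent.Helper5.FV

namespace Pool.Agent.Helper5.WD

theorem gstw_cmp (hRAT : ST_GRAT) {n D k : ℕ} {E : Finset (Finset (Fin n))} (hE : Two E)
    (hGD : GD E D (k - 1)) (hDk : D + 1 < k)
    (hh1 : ∀ (W : Finset (Fin n)) (v : Fin n), v ∈ W → |hh E W k v - hh E W (k - 1) v| ≤ 1 / 1000)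
    (V B : Finset (Fin n)) : B ⊆ V →
    (1 + 999 / 1000 / (k : ℝ)) ^ B.card * ((PP E (V \ B) k : ℝ) * PP E V (k - 1)) ≤
      (PP E (V \ B) (k - 1) : ℝ) * PP E V k ∧
    (PP E (V \ B) (k - 1) : ℝ) * PP E V k ≤
      (1 + 1001 / 1000 / ((k : ℝ) - 1 - D)) ^ B.card * ((PP E (V \ B) k : ℝ) * PP E V (k - 1)) := by
  classical
  have hk1 : ((k - 1 : ℕ) : ℝ) = (k : ℝ) - 1 := by
    rw [Nat.cast_sub (by omega)]
    simp
  have hk0 : (0 : ℝ) < k := by
    have : 0 < k := by omega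
    exact_mod_cast this
  have hDk' : (D : ℝ) + 1 < k := by exact_mod_cast hDk
  have hDn : (0 : ℝ) ≤ D := Nat.cast_nonneg D
  refine Finset.induction_on B ?_ ?_
  · intro _
    simp only [Finset.card_empty, pow_zero, one_mul, Finset.sdiff_empty]
    constructor
    · exact le_of_eq (mul_comm _ _)
    · exact le_of_eq (mul_comm _ _)
  · intro v B hvB ih hsub
    obtain ⟨ih1, ih2⟩ := ih ((Finset.subset_insert v B).trans hsub)
    have hvV : v ∈ V := hsub (Finset.mem_insert_self v B)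
    have hvU : v ∈ V \ B := Finset.mem_sdiff.2 ⟨hvV, hvB⟩
    have herase : V \ insert v B = (V \ B).erase v := by
      rw [Finset.sdiff_insert]
    rw [herase, Finset.card_insert_of_notMem hvB]
    obtain ⟨e1, e1a, e1b, -⟩ := hRAT n D (k - 1) k E (V \ B) v hE hGD (by omega) (by omega) hvU
    obtain ⟨e2, e2a, e2b, -⟩ := hRAT n D (k - 1) (k - 1) E (V \ B) v hE hGD le_rfl (by omega) hvU
    have h3 := abs_le.1 (hh1 (V \ B) v hvU)
    rw [e1, e2] at ih1 ih2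
    rw [hk1] at ih1 ih2
    have hrl0 : 0 < (k : ℝ) - 1 - hh E (V \ B) (k - 1) v := by linarith
    have hlow := sta_low1 (k : ℝ) ((k : ℝ) - 1 - hh E (V \ B) (k - 1) v)
      ((k : ℝ) - hh E (V \ B) k v) hk0 (by linarith) (by linarith [h3.2])
    have hup := sta_up1 ((k : ℝ) - 1 - D) ((k : ℝ) - 1 - hh E (V \ B) (k - 1) v)
      ((k : ℝ) - hh E (V \ B) k v) (by linarith) (by linarith) (by linarith [h3.1])
    have hq1 : (0 : ℝ) ≤ (1 + 999 / 1000 / (k : ℝ)) ^ B.card := by positivity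
    have hDpos : 0 < (k : ℝ) - 1 - D := by linarith
    have hq2 : (0 : ℝ) ≤ (1 + 1001 / 1000 / ((k : ℝ) - 1 - D)) ^ B.card := by positivity
    constructor
    · rw [pow_succ]
      exact sta_step1 _ _ _ _ _ _ _ _ hrl0 hlow hq1 (Nat.cast_nonneg _) (Nat.cast_nonneg _) ih1
    · rw [pow_succ]
      exact sta_step2 _ _ _ _ _ _ _ _ hrl0 hup hq2 (Nat.cast_nonneg _) (Nat.cast_nonneg _) ih2

theorem gstw_up (hEXM : ST_GEXM) (hF2 : ST_F2) {n D k : ℕ} {E : Finset (Finset (Fin n))}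
    (W : Finset (Fin n)) (hE : Two E) (hGD : GD E D (k - 1)) (hD : 1000 * D ≤ k) (hk : 10000 ≤ k)
    (hcmp : ∀ B : Finset (Fin n), B ⊆ W → (PP E (W \ B) (k - 1) : ℝ) * PP E W k ≤
      (1 + 1001 / 1000 / ((k : ℝ) - 1 - D)) ^ B.card *
        ((PP E (W \ B) k : ℝ) * PP E W (k - 1))) :
    (PP E W k : ℝ) ^ 2 ≤ Real.exp (1004 / 1000 * (n / (k : ℝ) ^ 2)) *
      ((PP E W (k - 1) : ℝ) * PP E W (k + 1)) := by
  classical
  have hk0 : (10000 : ℝ) ≤ k := by exact_mod_cast hk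
  have hD' : 1000 * (D : ℝ) ≤ k := by exact_mod_cast hD
  have hD0 : (0 : ℝ) ≤ D := Nat.cast_nonneg D
  obtain ⟨f1, -⟩ := hF2 n (k - 1) E W hE
  have hkk : k - 1 + 1 = k := by omega
  rw [hkk] at f1
  have f1' : (PP E W k : ℝ) = ∑ B ∈ W.powerset.filter
      (fun B => Pool.Agent.Helper89.UB.Al E B), (PP E (W \ B) (k - 1) : ℝ) := by
    rw [f1]; push_cast; rfl
  have hDpos : 0 < (k : ℝ) - 1 - D := by linarith
  have hDpos' : 0 < (k : ℝ) + 1 - D := by linarith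
  set a : ℝ := 1001 / 1000 / ((k : ℝ) - 1 - D) with ha
  have ha0 : 0 ≤ a := by positivity
  have hx := hEXM n D (k - 1) k E W a hE hGD (by omega) (by omega) ha0
  set T : Finset (Finset (Fin n)) := W.powerset.filter
      (fun B => Pool.Agent.Helper89.UB.Al E B) with hT
  have hcard : (W.card : ℝ) ≤ n := by
    have := Finset.card_le_univ W
    rw [Fintype.card_fin] at this
    exact_mod_cast this
  have hexp : (1 + a / ((k : ℝ) + 1 - D)) ^ W.card ≤ Real.exp (1004 / 1000 * (n / (k : ℝ) ^ 2)) := by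
    have h1 : 1 + a / ((k : ℝ) + 1 - D) ≤ Real.exp (a / ((k : ℝ) + 1 - D)) := by
      rw [add_comm]; exact Real.add_one_le_exp _
    have h2 : (1 + a / ((k : ℝ) + 1 - D)) ^ W.card ≤ Real.exp (a / ((k : ℝ) + 1 - D)) ^ W.card :=
      pow_le_pow_left₀ (by positivity) h1 _
    refine h2.trans ?_
    rw [← Real.exp_nat_mul, Real.exp_le_exp]
    have h3 : a / ((k : ℝ) + 1 - D) ≤ 1004 / 1000 / (k : ℝ) ^ 2 := by
      rw [ha, div_div, div_le_div_iff₀ (by positivity) (by positivity)]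
      have h4 : (k : ℝ) - D ≥ 999 / 1000 * k := by linarith
      have h5 : ((k : ℝ) - D) ^ 2 ≥ (999 / 1000 * k) ^ 2 := by
        exact pow_le_pow_left₀ (by positivity) h4 2
      nlinarith
    calc (W.card : ℝ) * (a / ((k : ℝ) + 1 - D)) ≤ n * (1004 / 1000 / (k : ℝ) ^ 2) :=
          mul_le_mul hcard h3 (by positivity) (Nat.cast_nonneg n)
      _ = 1004 / 1000 * (n / (k : ℝ) ^ 2) := by ring
  have hV1 : (0 : ℝ) ≤ PP E W (k - 1) := Nat.cast_nonneg _
  have hV3 : (0 : ℝ) ≤ PP E W (k + 1) := Nat.cast_nonneg _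
  calc (PP E W k : ℝ) ^ 2 = ∑ B ∈ T, (PP E (W \ B) (k - 1) : ℝ) * PP E W k := by
        rw [← Finset.sum_mul, ← f1', sq]
    _ ≤ ∑ B ∈ T, (1 + a) ^ B.card * ((PP E (W \ B) k : ℝ) * PP E W (k - 1)) :=
        Finset.sum_le_sum fun B hB => hcmp B (Finset.mem_powerset.1 (Finset.mem_filter.1 hB).1)
    _ = PP E W (k - 1) * ∑ B ∈ T, (PP E (W \ B) k : ℝ) * (1 + a) ^ B.card := by
        rw [Finset.mul_sum]
        refine Finset.sum_congr rfl fun B _ => ?_
        ring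
    _ ≤ PP E W (k - 1) * (PP E W (k + 1) * (1 + a / ((k : ℝ) + 1 - D)) ^ W.card) :=
        mul_le_mul_of_nonneg_left hx hV1
    _ ≤ PP E W (k - 1) * (PP E W (k + 1) *
          Real.exp (1004 / 1000 * (n / (k : ℝ) ^ 2))) :=
        mul_le_mul_of_nonneg_left (mul_le_mul_of_nonneg_left hexp hV3) hV1
    _ = _ := by ring

theorem st_GSTW (hHDF : ST_GHDF) (hRAT : ST_GRAT) (hEXM : ST_GEXM) (hSYM : ST_SYM)
    (hF2 : ST_F2) (hPOS : ST_GPOS) (hRGM : ST_GRGM) : ST_GSTW := by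
  obtain ⟨n1, h1⟩ := hHDF
  obtain ⟨n2, h2⟩ := hRGM
  refine ⟨max n1 n2, fun n hn D0 r k E W hReg hW hk1 hk2 => ?_⟩
  have hn1 : n1 ≤ n := (le_max_left _ _).trans hn
  have hn2 : n2 ≤ n := (le_max_right _ _).trans hn
  have hnl : (0 : ℝ) ≤ (n : ℝ) / Real.log n :=
    div_nonneg (Nat.cast_nonneg n) (Real.log_natCast_nonneg n)
  obtain ⟨-, -, -, hk, -⟩ := h2 n hn2 D0 r k E hReg (by linarith)
  have hk0 : (10000 : ℝ) ≤ k := by exact_mod_cast hk
  have hk3 : ((k - 1 : ℕ) : ℝ) = (k : ℝ) - 1 := by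
    rw [Nat.cast_sub (by omega)]
    simp
  obtain ⟨-, hD, -, -, -, hGD, -⟩ := h2 n hn2 D0 r (k - 1) E hReg (by
    rw [hk3]
    linarith)
  set D := D0 + 1 with hDdef
  have hE := hReg.two
  have hcmp := fun (B : Finset (Fin n)) (hB : B ⊆ W) => gstw_cmp hRAT hE hGD
    (by omega : D + 1 < k)
    (fun W v hv => h1 n hn1 D0 r k E W v hReg (by linarith) hv) W B hB
  have hp1 := (hPOS n D (k - 1) (k - 1) E W hE hGD le_rfl (by omega)).1
  have hp2 := (hPOS n D (k - 1) k E W hE hGD (by omega) (by omega)).1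
  have hp3 := (hPOS n D (k - 1) (k + 1) E W hE hGD (by omega) (by omega)).1
  refine ⟨hp1, hp2, hp3, ?_, ?_⟩
  · exact stw_low hSYM hF2 W hE (by omega) fun B hB => (hcmp B hB).1
  · exact gstw_up hEXM hF2 W hE hGD (by omega) hk fun B hB => (hcmp B hB).2

end Pool.Agent.Helper5.WD
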